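import Mathlib
import Pool.Agent.H114.PC.Regular

/-!
# MP_6350a9_co : 2-regularity of monochromatic progression lengths

For every pattern `v` (nonempty word over `{0,1}`):

* all values `A_v(0, d)` and `A_v(d)`, `d ≥ 1`, are finite;
* (a) the sequence `(A_v(0, d))_{d ≥ 1}` is 2-regular if and only if `v` consists of zeros only;
* (b) the sequence `(A_v(d))_{d ≥ 1}` is never 2-regular.
-/

namespace Pool.Agent.Results.MP_6350a9_co.PatternRegularity

open Pool.Agent.H114.PC

theorem result (v : List ℕ) (hv : IsPattern v) :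
    (∀ d : ℕ, 1 ≤ d → A v 0 d < ⊤ ∧ Asup v d < ⊤) ∧
    (TwoRegular (seqZero v) ↔ ∀ x ∈ v, x = 0) ∧
    ¬ TwoRegular (seqSup v) := by
  refine ⟨fun d hd => ⟨lt_of_le_of_lt (le_Asup 0 d) (Asup_lt_top hv hd), Asup_lt_top hv hd⟩,
    ?_, seqSup_not hv⟩
  constructor
  · intro h x hx
    rcases hv.2 x hx with h0 | h1
    · exact h0
    · exact absurd h (seqZero_not hv (h1 ▸ hx))
  · intro h
    exact seqZero_reg hv (fun h1 => absurd (h 1 h1) one_ne_zero)

end Pool.Agent.Results.MP_6350a9_co.PatternRegularity
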